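import Mathlib

/-!
The class of subdirect products of division rings is not first-order axiomatizable, neither for
unital rings nor for rings without a distinguished identity.

For a field `k` let `R_k` be the quaternion algebra generated over the polynomial ring
`k[x₀, x₁, x₂, ...]` by `i, j` with `i² = x₀`, `j² = x₁`, `ij = -ji`.

* If `k` is countable, then `R_k` is a subdirect product of division rings: the countable field
  `K = k(x₀, x₁, ...)` is a quotient of `k[x₀, x₁, ...]` in many ways, since the variables of large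
  index may be sent onto an enumeration of `K`, and the quaternion algebra with parameters
  `x₀, x₁` over `K` is a division ring.
* If `k` is the field of complex numbers, every homomorphism from `R_k` onto a division ring
  kills `ij`, because the center of the image is an algebraically closed field.
* By a Löwenheim-Skolem argument there is a countable subfield `k` of the complex numbers such that
  `R_k` is an elementary substructure of the ring over the complex numbers.
-/

namespace Pool.Agent.Results.MP_c671ed_lc.NotAxiomatizable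

open FirstOrder MvPolynomial

/-! ### The statement -/

/-- A unital ring is a subdirect product of division rings. -/
def IsSubdirectProduct (R : Type) [Ring R] : Prop :=
  ∃ (I : Type) (D : I → Type) (_ : ∀ i, DivisionRing (D i)) (φ : R →+* (∀ i, D i)),
    Function.Injective φ ∧ ∀ i, Function.Surjective (fun r => φ r i)

/-- A ring, not required to have an identity, is a subdirect product of division rings; here
homomorphisms are only required to respect sums and products. -/
def IsSubdirectProductNonUnital (R : Type) [NonUnitalRing R] : Prop :=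
  ∃ (I : Type) (D : I → Type) (_ : ∀ i, DivisionRing (D i)) (φ : R →ₙ+* (∀ i, D i)),
    Function.Injective φ ∧ ∀ i, Function.Surjective (fun r => φ r i)

/-- The function symbols `+`, `-`, `·`, `0`. -/
inductive RngFunc : ℕ → Type
  | add : RngFunc 2
  | neg : RngFunc 1
  | mul : RngFunc 2
  | zero : RngFunc 0

/-- The language `(+, -, ·, 0)` of rings without identity. -/
def rngLang : FirstOrder.Language.{0, 0} := ⟨RngFunc, fun _ => Empty⟩

/-- Every ring is a structure for the language `(+, -, ·, 0)`. -/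
instance rngStructure (R : Type) [NonUnitalRing R] : rngLang.Structure R where
  funMap := fun f x =>
    match f, x with
    | .add, x => x 0 + x 1
    | .neg, x => - x 0
    | .mul, x => x 0 * x 1
    | .zero, _ => 0
  RelMap := fun r _ => r.elim

/-! ### Part 1: the quaternion algebra with generic parameters is a division ring -/

section aniso

variable {F : Type*} [Field F]

/-- a monomial order on countably many variables -/
noncomputable def mo : MonomialOrder ℕ := (MonomialOrder.lex (σ := ℕᵒᵈ))

lemma normForm_ne (a b : MvPolynomial ℕ F) (h : a ≠ 0 ∨ b ≠ 0) :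
    a ^ 2 - X 0 * b ^ 2 ≠ 0 ∧ Even (mo.degree (a ^ 2 - X 0 * b ^ 2) 1) := by
  have ha2 : a ≠ 0 → mo.degree (a ^ 2) = 2 • mo.degree a := fun ha => mo.degree_pow _ _
  have hb2 : b ≠ 0 → mo.degree (X 0 * b ^ 2) = Finsupp.single 0 1 + 2 • mo.degree b := by
    intro hb
    rw [mo.degree_mul (X_ne_zero 0) (pow_ne_zero 2 hb), mo.degree_pow, mo.degree_X]
  by_cases ha : a = 0
  · have hb : b ≠ 0 := by tauto
    subst ha
    refine ⟨?_, ?_⟩
    · simp [hb, X_ne_zero]
    · have : (0 : MvPolynomial ℕ F) ^ 2 - X 0 * b ^ 2 = - (X 0 * b ^ 2) := by ring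
      rw [this, mo.degree_neg, hb2 hb]
      simp
  · by_cases hb : b = 0
    · subst hb
      refine ⟨by simpa using ha, ?_⟩
      have : a ^ 2 - X 0 * 0 ^ 2 = a ^ 2 := by ring
      rw [this, ha2 ha]
      simp
    · have hne : mo.degree (a ^ 2) ≠ mo.degree (- (X 0 * b ^ 2)) := by
        rw [mo.degree_neg, ha2 ha, hb2 hb]
        intro h
        have := congrArg (fun f => f 0) h
        simp at this
        omega
      refine ⟨?_, ?_⟩
      · intro h0
        apply hne
        rw [mo.degree_neg, sub_eq_zero.mp h0]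
      · have h1 := mo.degree_add_of_ne hne
        rw [← sub_eq_add_neg] at h1
        rcases le_total (mo.toSyn (mo.degree (a ^ 2))) (mo.toSyn (mo.degree (- (X 0 * b ^ 2)))) with
          h2 | h2
        · rw [sup_eq_right.mpr h2] at h1
          have h3 := mo.toSyn.injective h1
          rw [h3, mo.degree_neg, hb2 hb]
          simp
        · rw [sup_eq_left.mpr h2] at h1
          have h3 := mo.toSyn.injective h1
          rw [h3, ha2 ha]
          simp

lemma aniso (a b c d : MvPolynomial ℕ F)
    (h : a ^ 2 - X 0 * b ^ 2 = X 1 * (c ^ 2 - X 0 * d ^ 2)) :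
    a = 0 ∧ b = 0 ∧ c = 0 ∧ d = 0 := by
  have hcd : c = 0 ∧ d = 0 := by
    by_contra hcd
    have hcd' : c ≠ 0 ∨ d ≠ 0 := by tauto
    obtain ⟨h1, h2⟩ := normForm_ne c d hcd'
    have h3 : X 1 * (c ^ 2 - X 0 * d ^ 2) ≠ 0 := mul_ne_zero (X_ne_zero 1) h1
    have hab : a ≠ 0 ∨ b ≠ 0 := by
      by_contra hab
      push Not at hab
      apply h3
      rw [← h, hab.1, hab.2]
      ring
    obtain ⟨h4, h5⟩ := normForm_ne a b hab
    rw [h, mo.degree_mul (X_ne_zero 1) h1, mo.degree_X] at h5
    simp only [Finsupp.add_apply, Finsupp.single_eq_same] at h5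
    rw [add_comm, Nat.even_add_one] at h5
    exact h5 h2
  obtain ⟨rfl, rfl⟩ := hcd
  refine ⟨?_, ?_, rfl, rfl⟩
  · by_contra ha
    exact (normForm_ne a b (Or.inl ha)).1 (by rw [h]; ring)
  · by_contra hb
    exact (normForm_ne a b (Or.inr hb)).1 (by rw [h]; ring)

variable (F)

/-- the field of rational functions in countably many variables -/
abbrev Rat : Type _ := FractionRing (MvPolynomial ℕ F)

/-- the generic quaternion algebra -/
abbrev Quat : Type _ := QuaternionAlgebra (Rat F)
  (algebraMap (MvPolynomial ℕ F) (Rat F) (X 0)) 0 (algebraMap (MvPolynomial ℕ F) (Rat F) (X 1))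

variable {F}

lemma aniso_rat (a b c d : Rat F)
    (h : a ^ 2 - algebraMap (MvPolynomial ℕ F) (Rat F) (X 0) * b ^ 2 =
      algebraMap (MvPolynomial ℕ F) (Rat F) (X 1) *
        (c ^ 2 - algebraMap (MvPolynomial ℕ F) (Rat F) (X 0) * d ^ 2)) :
    a = 0 ∧ b = 0 ∧ c = 0 ∧ d = 0 := by
  classical
  obtain ⟨t, ht⟩ := IsLocalization.exist_integer_multiples_of_finset
    (nonZeroDivisors (MvPolynomial ℕ F)) ({a, b, c, d} : Finset (Rat F))
  obtain ⟨a', ha'⟩ := ht a (by simp)
  obtain ⟨b', hb'⟩ := ht b (by simp)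
  obtain ⟨c', hc'⟩ := ht c (by simp)
  obtain ⟨d', hd'⟩ := ht d (by simp)
  rw [Algebra.smul_def] at ha' hb' hc' hd'
  have hinj : Function.Injective (algebraMap (MvPolynomial ℕ F) (Rat F)) :=
    IsFractionRing.injective _ _
  have ht0 : algebraMap (MvPolynomial ℕ F) (Rat F) (t : MvPolynomial ℕ F) ≠ 0 := by
    rw [Ne, map_eq_zero_iff _ hinj]
    exact nonZeroDivisors.coe_ne_zero t
  have key : a' = 0 ∧ b' = 0 ∧ c' = 0 ∧ d' = 0 := by
    apply aniso
    apply hinj
    simp only [map_sub, map_mul, map_pow, ha', hb', hc', hd']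
    linear_combination (algebraMap (MvPolynomial ℕ F) (Rat F) (t : MvPolynomial ℕ F)) ^ 2 * h
  obtain ⟨h1, h2, h3, h4⟩ := key
  rw [h1, map_zero, eq_comm, mul_eq_zero] at ha'
  rw [h2, map_zero, eq_comm, mul_eq_zero] at hb'
  rw [h3, map_zero, eq_comm, mul_eq_zero] at hc'
  rw [h4, map_zero, eq_comm, mul_eq_zero] at hd'
  exact ⟨ha'.resolve_left ht0, hb'.resolve_left ht0, hc'.resolve_left ht0, hd'.resolve_left ht0⟩

lemma mul_star_quat {A : Type*} [CommRing A] {x y : A} (q : QuaternionAlgebra A x 0 y) :
    q * star q = (⟨q.re ^ 2 - x * q.imI ^ 2 - y * (q.imJ ^ 2 - x * q.imK ^ 2), 0, 0, 0⟩ :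
      QuaternionAlgebra A x 0 y) := by
  ext <;> simp <;> ring

lemma star_mul_quat {A : Type*} [CommRing A] {x y : A} (q : QuaternionAlgebra A x 0 y) :
    star q * q = (⟨q.re ^ 2 - x * q.imI ^ 2 - y * (q.imJ ^ 2 - x * q.imK ^ 2), 0, 0, 0⟩ :
      QuaternionAlgebra A x 0 y) := by
  ext <;> simp <;> ring

lemma isUnit_or_eq_zero_quat (q : Quat F) : IsUnit q ∨ q = 0 := by
  by_cases hq : q = 0
  · exact Or.inr hq
  left
  set N : Rat F := q.re ^ 2 - algebraMap (MvPolynomial ℕ F) (Rat F) (X 0) * q.imI ^ 2 -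
    algebraMap (MvPolynomial ℕ F) (Rat F) (X 1) *
      (q.imJ ^ 2 - algebraMap (MvPolynomial ℕ F) (Rat F) (X 0) * q.imK ^ 2) with hN
  have hN0 : N ≠ 0 := by
    intro h0
    apply hq
    obtain ⟨h1, h2, h3, h4⟩ := aniso_rat q.re q.imI q.imJ q.imK (sub_eq_zero.mp h0)
    ext
    · exact h1
    · exact h2
    · exact h3
    · exact h4
  have h1 : (⟨N, 0, 0, 0⟩ : Quat F) * ⟨N⁻¹, 0, 0, 0⟩ = 1 := by
    ext <;> simp [mul_inv_cancel₀ hN0]
  have h2 : (⟨N⁻¹, 0, 0, 0⟩ : Quat F) * q = q * ⟨N⁻¹, 0, 0, 0⟩ := by
    ext <;> simp [mul_comm]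
  refine ⟨⟨q, star q * ⟨N⁻¹, 0, 0, 0⟩, ?_, ?_⟩, rfl⟩
  · rw [← mul_assoc, mul_star_quat, ← hN, h1]
  · rw [mul_assoc, h2, ← mul_assoc, star_mul_quat, ← hN, h1]

noncomputable instance : DivisionRing (Quat F) :=
  DivisionRing.ofIsUnitOrEqZero isUnit_or_eq_zero_quat

/-- Base change of quaternion algebras along a ring homomorphism. -/
def mapQ {A B : Type*} [CommRing A] [CommRing B] (φ : A →+* B) {x y : A} {x' y' : B}
    (hx : φ x = x') (hy : φ y = y') : QuaternionAlgebra A x 0 y →+* QuaternionAlgebra B x' 0 y' where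
  toFun q := ⟨φ q.re, φ q.imI, φ q.imJ, φ q.imK⟩
  map_one' := by ext <;> simp
  map_zero' := by ext <;> simp
  map_add' p q := by ext <;> simp
  map_mul' p q := by subst hx hy; ext <;> simp

lemma mapQ_surjective {A B : Type*} [CommRing A] [CommRing B] (φ : A →+* B) {x y : A} {x' y' : B}
    (hx : φ x = x') (hy : φ y = y') (h : Function.Surjective φ) :
    Function.Surjective (mapQ φ hx hy) := by
  intro q
  obtain ⟨a, ha⟩ := h q.re
  obtain ⟨b, hb⟩ := h q.imI
  obtain ⟨c, hc⟩ := h q.imJ
  obtain ⟨d, hd⟩ := h q.imK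
  exact ⟨⟨a, b, c, d⟩, by ext <;> simp [mapQ, ha, hb, hc, hd]⟩

end aniso

/-! ### Part 2: the ring over a countable field is a subdirect product of division rings -/

/-- The ring: the quaternion algebra `(x₀, x₁)` over the polynomial ring in countably many
variables. -/
abbrev QRing (k : Type*) [Field k] : Type _ := QuaternionAlgebra (MvPolynomial ℕ k) (X 0) 0 (X 1)

lemma countable_poly {F : Type} [Field F] [Countable F] : Countable (MvPolynomial ℕ F) := by
  rw [← Cardinal.mk_le_aleph0_iff]
  refine MvPolynomial.cardinalMk_le_max.trans ?_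
  simp

lemma countable_rat {F : Type} [Field F] [Countable F] : Countable (Rat F) := by
  have h1 : Countable (MvPolynomial ℕ F) := countable_poly
  have h2 := IsLocalization.mk'_surjective (S := Rat F) (nonZeroDivisors (MvPolynomial ℕ F))
  refine Function.Surjective.countable (α := MvPolynomial ℕ F × nonZeroDivisors (MvPolynomial ℕ F))
    (f := fun p => IsLocalization.mk' (Rat F) p.1 p.2) ?_
  intro z
  obtain ⟨⟨x, y⟩, h⟩ := h2 z
  exact ⟨(x, y), h⟩

lemma exists_division_quotient {F : Type} [Field F] [Countable F] (r : QRing F) (hr : r ≠ 0) :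
    ∃ f : QRing F →+* Quat F, Function.Surjective f ∧ f r ≠ 0 := by
  classical
  have hc : Countable (Rat F) := countable_rat
  obtain ⟨e, he⟩ := exists_surjective_nat (Rat F)
  -- bound for the variables in `r`
  let s : Finset ℕ := r.re.vars ∪ r.imI.vars ∪ r.imJ.vars ∪ r.imK.vars
  obtain ⟨m, hm⟩ : ∃ m : ℕ, ∀ i ∈ s, i < m := ⟨s.sup id + 1, fun i hi =>
    Nat.lt_succ_of_le (Finset.le_sup (f := id) hi)⟩
  let g : ℕ → Rat F := fun i => if i < m + 2 then algebraMap (MvPolynomial ℕ F) (Rat F) (X i)
    else e (i - (m + 2))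
  let φ : MvPolynomial ℕ F →+* Rat F := eval₂Hom (algebraMap F (Rat F)) g
  have hφX : ∀ i, i < m + 2 → φ (X i) = algebraMap (MvPolynomial ℕ F) (Rat F) (X i) := by
    intro i hi
    simp [φ, g, hi]
  have hφsurj : Function.Surjective φ := by
    intro z
    obtain ⟨j, hj⟩ := he z
    refine ⟨X (j + (m + 2)), ?_⟩
    simp [φ, g, hj]
  have hφ : ∀ p : MvPolynomial ℕ F, (∀ i ∈ p.vars, i < m) →
      φ p = algebraMap (MvPolynomial ℕ F) (Rat F) p := by
    intro p hp
    have h1 : algebraMap (MvPolynomial ℕ F) (Rat F) p =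
        eval₂Hom (algebraMap F (Rat F)) (fun i => algebraMap (MvPolynomial ℕ F) (Rat F) (X i)) p := by
      have : (algebraMap (MvPolynomial ℕ F) (Rat F)) =
          eval₂Hom (algebraMap F (Rat F)) (fun i => algebraMap (MvPolynomial ℕ F) (Rat F) (X i)) := by
        apply MvPolynomial.ringHom_ext
        · intro c
          simp
          rfl
        · intro i
          simp
      rw [← this]
    rw [h1]
    apply eval₂Hom_congr' rfl _ rfl
    intro i hi _
    have : i < m + 2 := by have := hp i hi; omega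
    simp [g, this]
  refine ⟨mapQ φ (hφX 0 (by omega)) (hφX 1 (by omega)), mapQ_surjective _ _ _ hφsurj, ?_⟩
  intro h0
  apply hr
  have hinj : Function.Injective (algebraMap (MvPolynomial ℕ F) (Rat F)) :=
    IsFractionRing.injective _ _
  have h1 := congrArg QuaternionAlgebra.re h0
  have h2 := congrArg QuaternionAlgebra.imI h0
  have h3 := congrArg QuaternionAlgebra.imJ h0
  have h4 := congrArg QuaternionAlgebra.imK h0
  simp only [mapQ, RingHom.coe_mk, MonoidHom.coe_mk, OneHom.coe_mk, QuaternionAlgebra.re_zero,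
    QuaternionAlgebra.imI_zero, QuaternionAlgebra.imJ_zero, QuaternionAlgebra.imK_zero]
    at h1 h2 h3 h4
  rw [hφ _ (fun i hi => hm i (by simp [s, hi])), map_eq_zero_iff _ hinj] at h1
  rw [hφ _ (fun i hi => hm i (by simp [s, hi])), map_eq_zero_iff _ hinj] at h2
  rw [hφ _ (fun i hi => hm i (by simp [s, hi])), map_eq_zero_iff _ hinj] at h3
  rw [hφ _ (fun i hi => hm i (by simp [s, hi])), map_eq_zero_iff _ hinj] at h4
  ext1
  · exact h1
  · exact h2
  · exact h3
  · exact h4

/-! ### Part 3: quotients over the complex numbers -/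

lemma rank_QRing_le : Module.rank ℂ (QRing ℂ) ≤ Cardinal.aleph0 := by
  let e : QRing ℂ ≃ₗ[ℂ] (Fin 4 → MvPolynomial ℕ ℂ) :=
    (QuaternionAlgebra.linearEquivTuple _ _ _).restrictScalars ℂ
  rw [e.rank_eq, rank_fun, MvPolynomial.rank_eq]
  simp only [Fintype.card_fin, Nat.cast_ofNat]
  refine (mul_le_mul' (?_ : (4 : Cardinal) ≤ Cardinal.aleph0)
    (Cardinal.mk_le_aleph0 (α := ℕ →₀ ℕ))).trans_eq Cardinal.aleph0_mul_aleph0
  exact_mod_cast (Cardinal.natCast_lt_aleph0 (n := 4)).le

/-- The constant `c` of the ring. -/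
noncomputable abbrev cst (c : ℂ) : QRing ℂ := algebraMap ℂ (QRing ℂ) c

lemma kills {D : Type} [DivisionRing D] (g : QRing ℂ →+* D) (hg : Function.Surjective g) :
    g ⟨0, 0, 0, 1⟩ = 0 := by
  -- central elements go to central elements
  have hcentral : ∀ p : QRing ℂ, (∀ q, p * q = q * p) → g p ∈ Subring.center D := by
    intro p hp
    rw [Subring.mem_center_iff]
    intro d
    obtain ⟨q, rfl⟩ := hg d
    rw [← map_mul, ← map_mul, hp]
  have hcst : ∀ c : ℂ, g (cst c) ∈ Subring.center D := fun c =>
    hcentral _ (fun q => Algebra.commutes c q)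
  let a : ℂ →+* Subring.center D := (g.comp (algebraMap ℂ (QRing ℂ))).codRestrict _ hcst
  let _ : Algebra ℂ (Subring.center D) := a.toAlgebra
  let _ : Algebra ℂ D := (g.comp (algebraMap ℂ (QRing ℂ))).toAlgebra' (by
    intro c d
    exact ((Subring.mem_center_iff.mp (hcst c)) d).symm)
  let gl : QRing ℂ →ₐ[ℂ] D := { g with commutes' := fun c => rfl }
  have hrankD : Module.rank ℂ D ≤ Cardinal.aleph0 :=
    (gl.toLinearMap.rank_le_of_surjective hg).trans rank_QRing_le
  -- every central element of `D` is a complex number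
  have halg : Algebra.IsIntegral ℂ (Subring.center D) := by
    rw [← Algebra.isAlgebraic_iff_isIntegral]
    refine ⟨fun z => ?_⟩
    by_contra hz
    have hli := Transcendental.linearIndependent_sub_inv (F := ℂ) (E := Subring.center D) hz
    let incl : Subring.center D →ₐ[ℂ] D := { (Subring.center D).subtype with commutes' := fun c => rfl }
    have hli2 := hli.map' incl.toLinearMap (LinearMap.ker_eq_bot.mpr Subtype.val_injective)
    have h1 := hli2.cardinal_lift_le_rank
    have h2 := h1.trans (Cardinal.lift_le.mpr hrankD)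
    rw [Cardinal.lift_id, Cardinal.lift_id, Cardinal.mk_complex] at h2
    exact absurd h2 (not_le.mpr Cardinal.aleph0_lt_continuum)
  have hbij : Function.Bijective (algebraMap ℂ (Subring.center D)) :=
    IsAlgClosed.algebraMap_bijective_of_isIntegral
  have hX0 : g ⟨X 0, 0, 0, 0⟩ ∈ Subring.center D := by
    apply hcentral
    intro q
    ext <;> simp [mul_comm]
  obtain ⟨α, hα⟩ := hbij.2 ⟨_, hX0⟩
  have hα' : g (cst α) = g ⟨X 0, 0, 0, 0⟩ := congrArg Subtype.val hα
  obtain ⟨γ, hγ⟩ := IsAlgClosed.exists_pow_nat_eq α (n := 2) (by norm_num)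
  -- the image of `i` is central
  have hi : g ⟨0, 1, 0, 0⟩ ∈ Subring.center D := by
    have hcomm : g (cst γ) * g ⟨0, 1, 0, 0⟩ = g ⟨0, 1, 0, 0⟩ * g (cst γ) :=
      ((Subring.mem_center_iff.mp (hcst γ)) _).symm
    have h1 : g ⟨0, 1, 0, 0⟩ * g ⟨0, 1, 0, 0⟩ = g (cst γ) * g (cst γ) := by
      rw [← map_mul, ← map_mul]
      have h2 : (⟨0, 1, 0, 0⟩ : QRing ℂ) * ⟨0, 1, 0, 0⟩ = ⟨X 0, 0, 0, 0⟩ := by
        ext1 <;> simp
      rw [h2, ← hα', ← hγ, pow_two]
      simp only [cst, map_mul]
    have h3 : (g ⟨0, 1, 0, 0⟩ - g (cst γ)) * (g ⟨0, 1, 0, 0⟩ + g (cst γ)) = 0 := by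
      rw [sub_mul, mul_add, mul_add, h1, hcomm]
      abel
    rcases mul_eq_zero.mp h3 with h4 | h4
    · rw [sub_eq_zero.mp h4]
      exact hcst γ
    · rw [eq_neg_of_add_eq_zero_left h4]
      exact neg_mem (hcst γ)
  have hij : g ⟨0, 0, 0, 1⟩ = - g ⟨0, 0, 0, 1⟩ := by
    have h1 : (⟨0, 0, 0, 1⟩ : QRing ℂ) = ⟨0, 1, 0, 0⟩ * ⟨0, 0, 1, 0⟩ := by
      ext1 <;> simp
    have h2 : -(⟨0, 0, 0, 1⟩ : QRing ℂ) = ⟨0, 0, 1, 0⟩ * ⟨0, 1, 0, 0⟩ := by
      ext1 <;> simp
    rw [← map_neg, h2, h1, map_mul, map_mul, (Subring.mem_center_iff.mp hi)]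
  have h2 : g ⟨0, 0, 0, 1⟩ + g ⟨0, 0, 0, 1⟩ = 0 := by
    nth_rewrite 1 [hij]
    exact neg_add_cancel _
  have hchar : (g (cst 2)) * g ⟨0, 0, 0, 1⟩ = 0 := by
    rw [← map_mul, ← h2, ← map_add]
    congr 1
    rw [← Algebra.smul_def, two_smul]
  rcases mul_eq_zero.mp hchar with h3 | h3
  · exfalso
    have : (algebraMap ℂ (Subring.center D)) 2 = 0 := Subtype.ext h3
    rw [map_eq_zero] at this
    norm_num at this
  · exact h3

/-! ### Part 4: a countable subfield giving an elementary substructure -/

instance countable_QRing {F : Type} [Field F] [Countable F] : Countable (QRing F) := by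
  have := countable_poly (F := F)
  exact (QuaternionAlgebra.equivProd (X 0 : MvPolynomial ℕ F) 0 (X 1)).injective.countable

/-- The inclusion of the ring over a subfield of `ℂ` into the ring over `ℂ`. -/
noncomputable def incl (F : Subfield ℂ) : QRing F →+* QRing ℂ :=
  mapQ (MvPolynomial.map F.subtype) (map_X _ _) (map_X _ _)

lemma incl_injective (F : Subfield ℂ) : Function.Injective (incl F) := by
  intro p q h
  have hinj : Function.Injective (MvPolynomial.map (σ := ℕ) F.subtype) :=
    MvPolynomial.map_injective _ F.subtype.injective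
  ext1
  · exact hinj (congrArg QuaternionAlgebra.re h)
  · exact hinj (congrArg QuaternionAlgebra.imI h)
  · exact hinj (congrArg QuaternionAlgebra.imJ h)
  · exact hinj (congrArg QuaternionAlgebra.imK h)

/-- the components of a quaternion -/
def comp4 (r : QRing ℂ) : Fin 4 → MvPolynomial ℕ ℂ := ![r.re, r.imI, r.imJ, r.imK]

lemma mem_range_map_iff (F : Subfield ℂ) (p : MvPolynomial ℕ ℂ) :
    p ∈ Set.range (MvPolynomial.map (σ := ℕ) F.subtype) ↔ ∀ m, coeff m p ∈ F := by
  rw [mem_range_map_iff_coeffs_subset]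
  constructor
  · intro h m
    by_cases hm : coeff m p = 0
    · rw [hm]; exact F.zero_mem
    · have h1 : coeff m p ∈ (p.coeffs : Set ℂ) := by
        rw [Finset.mem_coe, mem_coeffs_iff]
        exact ⟨m, mem_support_iff.mpr hm, rfl⟩
      obtain ⟨c, hc⟩ := h h1
      rw [← hc]
      exact c.2
  · intro h c hc
    rw [Finset.mem_coe, mem_coeffs_iff] at hc
    obtain ⟨m, _, rfl⟩ := hc
    exact ⟨⟨_, h m⟩, rfl⟩

lemma mem_range_incl_iff (F : Subfield ℂ) (r : QRing ℂ) :
    r ∈ Set.range (incl F) ↔ ∀ i m, coeff m (comp4 r i) ∈ F := by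
  constructor
  · rintro ⟨q, rfl⟩ i m
    revert m
    rw [← mem_range_map_iff]
    fin_cases i
    · exact ⟨q.re, rfl⟩
    · exact ⟨q.imI, rfl⟩
    · exact ⟨q.imJ, rfl⟩
    · exact ⟨q.imK, rfl⟩
  · intro h
    obtain ⟨a, ha⟩ := (mem_range_map_iff F _).mpr (h 0)
    obtain ⟨b, hb⟩ := (mem_range_map_iff F _).mpr (h 1)
    obtain ⟨c, hc⟩ := (mem_range_map_iff F _).mpr (h 2)
    obtain ⟨d, hd⟩ := (mem_range_map_iff F _).mpr (h 3)
    refine ⟨⟨a, b, c, d⟩, ?_⟩
    ext1
    · exact ha
    · exact hb
    · exact hc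
    · exact hd

section LS

variable (L : FirstOrder.Language.{0, 0}) [L.Structure (QRing ℂ)]

open Classical in
/-- A witness for an existential formula. -/
noncomputable def wit (n : ℕ) (φ : L.BoundedFormula Empty (n + 1)) (x : Fin n → QRing ℂ) : QRing ℂ :=
  if h : ∃ a : QRing ℂ, φ.Realize default (Fin.snoc x a) then h.choose else 0

variable {L} in
lemma wit_spec (n : ℕ) (φ : L.BoundedFormula Empty (n + 1)) (x : Fin n → QRing ℂ)
    (h : ∃ a : QRing ℂ, φ.Realize default (Fin.snoc x a)) :
    φ.Realize default (Fin.snoc x (wit L n φ x)) := by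
  rw [wit, dif_pos h]
  exact h.choose_spec

/-- indices for the coefficients of all witnesses -/
abbrev Idx (F : Subfield ℂ) : Type :=
  (Σ n : ℕ, (L.BoundedFormula Empty (n + 1) × (Fin n → QRing F))) × Fin 4 × (ℕ →₀ ℕ)

/-- One closure step. -/
noncomputable def step (F : Subfield ℂ) : Subfield ℂ :=
  Subfield.closure ((F : Set ℂ) ∪ Set.range (fun t : Idx L F =>
    coeff t.2.2 (comp4 (wit L t.1.1 t.1.2.1 (fun j => incl F (t.1.2.2 j))) t.2.1)))

lemma le_step (F : Subfield ℂ) : F ≤ step L F :=
  fun _ hx => Subfield.subset_closure (Or.inl hx)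

lemma wit_mem_step (F : Subfield ℂ) (n : ℕ) (φ : L.BoundedFormula Empty (n + 1))
    (x : Fin n → QRing F) : wit L n φ (fun j => incl F (x j)) ∈ Set.range (incl (step L F)) := by
  rw [mem_range_incl_iff]
  intro i m
  exact Subfield.subset_closure (Or.inr ⟨(⟨n, φ, x⟩, i, m), rfl⟩)

lemma countable_closure (s : Set ℂ) (hs : s.Countable) : Countable (Subfield.closure s) := by
  rw [← Cardinal.mk_le_aleph0_iff]
  refine (Subfield.cardinalMk_closure_le_max s).trans (max_le ?_ le_rfl)
  exact Cardinal.le_aleph0_iff_set_countable.mpr hs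

lemma countable_step [Countable L.Symbols] (F : Subfield ℂ) [Countable F] :
    Countable (step L F) := by
  apply countable_closure
  refine Set.Countable.union ?_ ?_
  · exact Set.countable_coe_iff.mp (inferInstanceAs (Countable F))
  · have h1 : ∀ n : ℕ, Countable (L.BoundedFormula Empty (n + 1)) := by
      intro n
      have h : Function.Injective (fun φ : L.BoundedFormula Empty (n + 1) =>
        (⟨n + 1, φ⟩ : Σ n, L.BoundedFormula Empty n)) := by
        intro a b hab
        simpa using hab
      exact h.countable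
    have : Countable (Idx L F) := inferInstance
    exact Set.countable_range _

/-- The chain of subfields. -/
noncomputable def chain : ℕ → Subfield ℂ
  | 0 => ⊥
  | n + 1 => step L (chain n)

lemma chain_mono : Monotone (chain L) := monotone_nat_of_le_succ (fun n => le_step L _)

lemma countable_chain [Countable L.Symbols] (n : ℕ) : Countable (chain L n) := by
  induction n with
  | zero =>
    have : Countable (Subfield.closure (∅ : Set ℂ)) := countable_closure ∅ Set.countable_empty
    rwa [Subfield.closure_empty] at this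
  | succ n ih => exact countable_step L (chain L n)

lemma mem_iSup_chain (c : ℂ) : c ∈ (⨆ n, chain L n) ↔ ∃ n, c ∈ chain L n :=
  Subfield.mem_iSup_of_directed (chain_mono L).directed_le

lemma countable_iSup_chain [Countable L.Symbols] : Countable ((⨆ n, chain L n : Subfield ℂ)) := by
  have h : ((⨆ n, chain L n : Subfield ℂ) : Set ℂ) = ⋃ n, (chain L n : Set ℂ) := by
    ext c
    rw [SetLike.mem_coe, mem_iSup_chain, Set.mem_iUnion]
    rfl
  have h2 : (⋃ n, (chain L n : Set ℂ)).Countable := by
    apply Set.countable_iUnion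
    intro n
    have := countable_chain L n
    exact Set.countable_coe_iff.mp this
  rw [← h] at h2
  exact Set.countable_coe_iff.mpr h2

lemma exists_bound_poly (p : MvPolynomial ℕ ℂ) (hp : ∀ m, coeff m p ∈ ⨆ n, chain L n) :
    ∃ N, ∀ m, coeff m p ∈ chain L N := by
  have h1 : ∀ m, ∃ N, coeff m p ∈ chain L N := fun m => (mem_iSup_chain L _).mp (hp m)
  choose N hN using h1
  refine ⟨p.support.sup N, fun m => ?_⟩
  by_cases hm : m ∈ p.support
  · exact chain_mono L (Finset.le_sup hm) (hN m)
  · rw [notMem_support_iff.mp hm]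
    exact Subfield.zero_mem _

lemma exists_bound (r : QRing ℂ) (hr : r ∈ Set.range (incl (⨆ n, chain L n))) :
    ∃ N, r ∈ Set.range (incl (chain L N)) := by
  rw [mem_range_incl_iff] at hr
  have h1 : ∀ i, ∃ N, ∀ m, coeff m (comp4 r i) ∈ chain L N := fun i => exists_bound_poly L _ (hr i)
  choose N hN using h1
  refine ⟨Finset.univ.sup N, ?_⟩
  rw [mem_range_incl_iff]
  intro i m
  exact chain_mono L (Finset.le_sup (Finset.mem_univ i)) (hN i m)

lemma range_mono {F F' : Subfield ℂ} (h : F ≤ F') : Set.range (incl F) ⊆ Set.range (incl F') := by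
  intro r hr
  rw [mem_range_incl_iff] at hr ⊢
  exact fun i m => h (hr i m)

lemma tarski_vaught (n : ℕ) (φ : L.BoundedFormula Empty (n + 1))
    (x : Fin n → QRing (⨆ n, chain L n : Subfield ℂ)) (a : QRing ℂ)
    (ha : φ.Realize default (Fin.snoc (incl (⨆ n, chain L n) ∘ x) a)) :
    ∃ b : QRing (⨆ n, chain L n : Subfield ℂ),
      φ.Realize default (Fin.snoc (incl (⨆ n, chain L n) ∘ x) (incl (⨆ n, chain L n) b)) := by
  have h1 : ∀ j, ∃ N, incl (⨆ n, chain L n) (x j) ∈ Set.range (incl (chain L N)) :=
    fun j => exists_bound L _ ⟨x j, rfl⟩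
  choose N hN using h1
  have h2 : ∀ j, incl (⨆ n, chain L n) (x j) ∈ Set.range (incl (chain L (Finset.univ.sup N))) :=
    fun j => range_mono (chain_mono L (Finset.le_sup (Finset.mem_univ j))) (hN j)
  choose x' hx' using h2
  have h3 : (incl (⨆ n, chain L n) ∘ x) = fun j => incl (chain L (Finset.univ.sup N)) (x' j) := by
    funext j
    exact (hx' j).symm
  have h4 := wit_mem_step L (chain L (Finset.univ.sup N)) n φ x'
  have h5 : Set.range (incl (step L (chain L (Finset.univ.sup N)))) ⊆
      Set.range (incl (⨆ n, chain L n)) :=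
    range_mono (le_iSup (chain L) (Finset.univ.sup N + 1))
  obtain ⟨b, hb⟩ := h5 h4
  refine ⟨b, ?_⟩
  rw [hb, h3]
  rw [h3] at ha
  exact wit_spec n φ _ ⟨a, ha⟩

end LS


/-! ### Part 5: languages and the conclusion -/

noncomputable instance compatQRing (k : Type) [Field k] : FirstOrder.Ring.CompatibleRing (QRing k) :=
  FirstOrder.Ring.compatibleRingOfRing _

/-- The chosen countable field. -/
noncomputable def smallField : Subfield ℂ := ⨆ n, chain Language.ring n

instance : Countable Language.ring.Symbols := inferInstance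

instance : Countable smallField := countable_iSup_chain Language.ring

/-- The inclusion as an embedding of structures. -/
noncomputable def emb : QRing smallField ↪[Language.ring] QRing ℂ where
  toFun := incl smallField
  inj' := incl_injective smallField
  map_fun' := by
    intro n f x
    cases f <;> simp [FirstOrder.Language.Structure.funMap]
  map_rel' := by
    intro n r
    exact r.elim

lemma elementarilyEquivalent (φ : Language.ring.Sentence) :
    QRing smallField ⊨ φ ↔ QRing ℂ ⊨ φ := by
  refine (emb.toElementaryEmbedding ?_).map_sentence φ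
  intro n φ x a ha
  have e : (@default (Empty → QRing ℂ) Unique.instInhabited) =
      (@default (Empty → QRing ℂ) Pi.instInhabited) := Subsingleton.elim _ _
  rw [e] at ha ⊢
  exact tarski_vaught Language.ring n φ x a ha

/-- The inclusion of languages. -/
def rngToRing : rngLang →ᴸ Language.ring where
  onFunction := fun _ f => match f with
    | .add => .add
    | .neg => .neg
    | .mul => .mul
    | .zero => .zero
  onRelation := fun _ r => r.elim

instance (k : Type) [Field k] : rngToRing.IsExpansionOn (QRing k) where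
  map_onFunction := by
    intro n f x
    cases f <;> rfl
  map_onRelation := by
    intro n r
    exact r.elim

lemma elementarilyEquivalent_rng (φ : rngLang.Sentence) :
    QRing smallField ⊨ φ ↔ QRing ℂ ⊨ φ := by
  rw [← rngToRing.realize_onSentence (QRing smallField) φ,
    ← rngToRing.realize_onSentence (QRing ℂ) φ]
  exact elementarilyEquivalent _

lemma small_isSubdirectProduct : IsSubdirectProduct (QRing smallField) := by
  have h : ∀ r : {r : QRing smallField // r ≠ 0}, ∃ f : QRing smallField →+* Quat smallField,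
      Function.Surjective f ∧ f r.1 ≠ 0 := fun r => exists_division_quotient r.1 r.2
  choose f hf1 hf2 using h
  refine ⟨_, fun _ => Quat smallField, fun _ => inferInstance, RingHom.pi f, ?_, hf1⟩
  rw [injective_iff_map_eq_zero]
  intro r hr
  by_contra hr0
  exact hf2 ⟨r, hr0⟩ (congrFun hr ⟨r, hr0⟩)

lemma small_isSubdirectProductNonUnital : IsSubdirectProductNonUnital (QRing smallField) := by
  obtain ⟨I, D, hD, φ, h1, h2⟩ := small_isSubdirectProduct
  exact ⟨I, D, hD, φ.toNonUnitalRingHom, h1, h2⟩

lemma ij_ne_zero : (⟨0, 0, 0, 1⟩ : QRing ℂ) ≠ 0 := by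
  intro h
  have := congrArg QuaternionAlgebra.imK h
  exact one_ne_zero this

lemma not_isSubdirectProductNonUnital : ¬ IsSubdirectProductNonUnital (QRing ℂ) := by
  rintro ⟨I, D, hD, φ, h1, h2⟩
  apply ij_ne_zero
  apply h1
  rw [map_zero]
  funext i
  -- the i-th component is a unital ring homomorphism
  let g : QRing ℂ →+* D i :=
    { toFun := fun r => φ r i
      map_one' := by
        obtain ⟨u, hu⟩ := h2 i 1
        have h3 : φ (1 * u) i = φ 1 i * φ u i := by rw [map_mul]; rfl
        have hu' : φ u i = 1 := hu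
        rw [one_mul, hu', mul_one] at h3
        exact h3.symm
      map_mul' := fun a b => by rw [map_mul]; rfl
      map_zero' := by rw [map_zero]; rfl
      map_add' := fun a b => by rw [map_add]; rfl }
  exact kills g (h2 i)

lemma not_isSubdirectProduct : ¬ IsSubdirectProduct (QRing ℂ) := by
  rintro ⟨I, D, hD, φ, h1, h2⟩
  exact not_isSubdirectProductNonUnital ⟨I, D, hD, φ.toNonUnitalRingHom, h1, h2⟩

/-- **Theorem.** The class of subdirect products of division rings is not axiomatizable by
first-order sentences, for unital rings in the language `(+, -, ·, 0, 1)` as well as for rings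
without a required identity in the language `(+, -, ·, 0)`. -/
theorem result :
    (¬ ∃ T : Language.ring.Theory, ∀ (R : Type) [Ring R] [FirstOrder.Ring.CompatibleRing R],
      R ⊨ T ↔ IsSubdirectProduct R) ∧
    (¬ ∃ T : rngLang.Theory, ∀ (R : Type) [NonUnitalRing R],
      R ⊨ T ↔ IsSubdirectProductNonUnital R) := by
  constructor
  · rintro ⟨T, hT⟩
    apply not_isSubdirectProduct
    rw [← hT (QRing ℂ), Language.Theory.model_iff]
    intro φ hφ
    rw [← elementarilyEquivalent]
    have h1 := (hT (QRing smallField)).mpr small_isSubdirectProduct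
    exact (Language.Theory.model_iff T).mp h1 φ hφ
  · rintro ⟨T, hT⟩
    apply not_isSubdirectProductNonUnital
    rw [← hT (QRing ℂ), Language.Theory.model_iff]
    intro φ hφ
    rw [← elementarilyEquivalent_rng]
    have h1 := (hT (QRing smallField)).mpr small_isSubdirectProductNonUnital
    exact (Language.Theory.model_iff T).mp h1 φ hφ

end Pool.Agent.Results.MP_c671ed_lc.NotAxiomatizable
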